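import Pool.Agent.W363.JQ.Stm

set_option autoImplicit false
open Filter Topology Set Metric

namespace Pool.Agent.W653.JQ

open Pool.Agent.W363.JQ

theorem norm_rp (s t : ℝ) : ‖rp s t‖ = Real.exp s := by
  unfold rp
  rw [Complex.norm_exp]
  congr 1
  simp

theorem rp_pow (s t : ℝ) (d : ℕ) : rp s t ^ d = rp (d * s) (d * t) := by
  unfold rp
  rw [← Complex.exp_nat_mul]
  congr 1
  push_cast
  ring

theorem rp_add_int (s t : ℝ) (k : ℤ) : rp s (t + k) = rp s t := by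
  unfold rp
  rw [Complex.exp_eq_exp_iff_exists_int]
  refine ⟨k, ?_⟩
  push_cast
  ring

theorem rp_add_one (s t : ℝ) : rp s (t + 1) = rp s t := by
  have := rp_add_int s t 1
  simpa using this

theorem rp_fract (s t : ℝ) : rp s (Int.fract t) = rp s t := by
  have h := rp_add_int s (Int.fract t) ⌊t⌋
  rw [Int.fract_add_floor] at h
  exact h.symm

theorem rp_cont : Continuous fun p : ℝ × ℝ => rp p.1 p.2 := by
  unfold rp
  fun_prop

theorem exists_rp (w : ℂ) (hw : 1 < ‖w‖) : ∃ s t : ℝ, 0 < s ∧ s = Real.log ‖w‖ ∧ rp s t = w := by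
  have h0 : w ≠ 0 := by
    intro h
    rw [h, norm_zero] at hw
    linarith
  refine ⟨Real.log ‖w‖, w.arg / (2 * Real.pi), Real.log_pos hw, rfl, ?_⟩
  unfold rp
  have hpi : (Real.pi : ℂ) ≠ 0 := by exact_mod_cast Real.pi_ne_zero
  have h1 : (2 * (Real.pi : ℂ) * ((w.arg / (2 * Real.pi) : ℝ) : ℂ) * Complex.I) =
      (w.arg : ℂ) * Complex.I := by
    push_cast
    field_simp
  rw [h1, ← Complex.exp_log h0]
  congr 1
  rw [Complex.exp_log h0]
  rw [Complex.log]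

theorem norm_rp_gt {s : ℝ} (hs : 0 < s) (t : ℝ) : rp s t ∈ {w : ℂ | 1 < ‖w‖} := by
  rw [mem_ofPred_eq, norm_rp]
  exact Real.one_lt_exp_iff.mpr hs

/-- the map in the coordinates (logarithm of the modulus, angle) -/
noncomputable def GG (Φ : ℂ → ℂ) (s t : ℝ) : ℂ := Φ (rp s t)

theorem GG_cont {Φ : ℂ → ℂ} (h : ContinuousOn Φ {w : ℂ | 1 < ‖w‖}) :
    ContinuousOn (fun p : ℝ × ℝ => GG Φ p.1 p.2) {p | 0 < p.1} :=
  h.comp rp_cont.continuousOn fun _ hp => norm_rp_gt hp _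

theorem GG_conj {f : Polynomial ℂ} {Φ : ℂ → ℂ} (hΦ : Bott f Φ) {s : ℝ} (hs : 0 < s) (t : ℝ) :
    f.eval (GG Φ s t) = GG Φ (f.natDegree * s) (f.natDegree * t) := by
  unfold GG
  rw [hΦ.conj _ (norm_rp_gt hs t), rp_pow]

theorem GG_iter {f : Polynomial ℂ} (hd : 2 ≤ f.natDegree) {Φ : ℂ → ℂ} (hΦ : Bott f Φ) (n : ℕ) :
    ∀ (s : ℝ), 0 < s → ∀ t : ℝ,
      it f n (GG Φ s t) = GG Φ ((f.natDegree : ℝ) ^ n * s) ((f.natDegree : ℝ) ^ n * t) := by
  have hd0 : (0 : ℝ) < f.natDegree := by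
    have : (2 : ℝ) ≤ f.natDegree := by exact_mod_cast hd
    linarith
  induction n with
  | zero => intro s _ t; simp [it]
  | succ n ih =>
    intro s hs t
    have h1 : it f (n + 1) (GG Φ s t) = it f n (f.eval (GG Φ s t)) := by
      simp only [it, Function.iterate_succ, Function.comp]
    rw [h1, GG_conj hΦ hs, ih _ (by positivity)]
    congr 1 <;> ring

theorem exists_scale {d s₁ s : ℝ} (hd : 2 ≤ d) (hs : 0 < s) (hs₁ : s ≤ s₁) :
    ∃ n : ℕ, d ^ n * s ≤ s₁ ∧ s₁ < d ^ (n + 1) * s := by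
  have h1 : ∃ n : ℕ, s₁ < d ^ n * s := by
    obtain ⟨n, hn⟩ := pow_unbounded_of_one_lt (s₁ / s) (show 1 < d by linarith)
    exact ⟨n, (div_lt_iff₀ hs).mp hn⟩
  classical
  have h2 := Nat.find_spec h1
  have h3 : Nat.find h1 ≠ 0 := by
    intro h
    rw [h, pow_zero, one_mul] at h2
    linarith
  obtain ⟨m, hm⟩ := Nat.exists_eq_succ_of_ne_zero h3
  refine ⟨m, ?_, ?_⟩
  · have := Nat.find_min h1 (m := m) (by omega)
    exact not_lt.mp this
  · rw [hm] at h2
    exact h2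

/-- one step of the estimate -/
theorem step (h : S_shr) {f : Polynomial ℂ} {r : ℝ} {Φ : ℂ → ℂ} (hb : Bas f) (hE : Ex f r)
    (hΦ : Bott f Φ) {s₁ ω : ℝ} (hs₁ : 0 < s₁) (hω : 0 < ω)
    (hJ : ∀ s : ℝ, 0 < s → s ≤ s₁ → ∀ t, ∃ x ∈ JJ f, dist (GG Φ s t) x < r / 2)
    (hU : ∀ s ∈ Icc (s₁ / (f.natDegree : ℝ) ^ 2) s₁, ∀ s' ∈ Icc (s₁ / (f.natDegree : ℝ) ^ 2) s₁,
      ∀ t : ℝ, |s - s'| ≤ ω → dist (GG Φ s t) (GG Φ s' t) < r / 2)
    (m : ℕ) (s s' t : ℝ) (hs : 0 < s) (hsm : s ≤ s₁ / (f.natDegree : ℝ) ^ m)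
    (h1 : s / f.natDegree ≤ s') (h2 : s' ≤ s) :
    dist (GG Φ s' t) (GG Φ s t) ≤ (s₁ / ω + 1) * r / 2 ^ m := by
  have hd : (2 : ℝ) ≤ f.natDegree := by exact_mod_cast hb.deg
  set d : ℝ := ((f.natDegree : ℕ) : ℝ) with hdef
  have hd0 : 0 < d := by linarith
  have hdm : 0 < d ^ m := by positivity
  have hr : 0 < r := hE.1
  have hmul : d ^ m * s ≤ s₁ := by
    rw [le_div_iff₀ hdm] at hsm
    linarith [mul_comm s (d ^ m)]
  have hss : s ≤ s₁ := by
    have : 1 ≤ d ^ m := one_le_pow₀ (by linarith)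
    nlinarith
  obtain ⟨n, hn1, hn2⟩ := exists_scale hd hs hss
  have hmn : m ≤ n := by
    by_contra hlt
    push Not at hlt
    have : d ^ (n + 1) ≤ d ^ m := pow_le_pow_right₀ (by linarith) (by omega)
    nlinarith
  have hdn : 0 < d ^ n := by positivity
  have hs' : 0 < s' := lt_of_lt_of_le (by positivity) h1
  have hab : d ^ n * s' ≤ d ^ n * s := mul_le_mul_of_nonneg_left h2 hdn.le
  have hlow : s₁ / d ^ 2 ≤ d ^ n * s' := by
    rw [div_le_iff₀ (by positivity)]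
    rw [div_le_iff₀ hd0] at h1
    calc s₁ ≤ d ^ (n + 1) * s := hn2.le
      _ ≤ d ^ (n + 1) * (s' * d) := mul_le_mul_of_nonneg_left h1 (by positivity)
      _ = d ^ n * s' * d ^ 2 := by ring
  have key := h f r hb hE n (d ^ n * s') (d ^ n * s) ω (fun u => GG Φ (u / d ^ n) t) hab hω ?_ ?_ ?_
  · have e1 : d ^ n * s' / d ^ n = s' := by field_simp
    have e2 : d ^ n * s / d ^ n = s := by field_simp
    simp only [e1, e2] at key
    refine key.trans ?_
    have h5 : (d ^ n * s - d ^ n * s') / ω ≤ s₁ / ω := by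
      apply div_le_div_of_nonneg_right _ hω.le
      have : 0 ≤ d ^ n * s' := by positivity
      linarith
    have h6 : ((d ^ n * s - d ^ n * s') / ω + 1) * r ≤ (s₁ / ω + 1) * r := by
      apply mul_le_mul_of_nonneg_right _ hr.le
      linarith
    have h7 : 0 ≤ (s₁ / ω + 1) * r := by positivity
    calc ((d ^ n * s - d ^ n * s') / ω + 1) * r / 2 ^ n ≤ (s₁ / ω + 1) * r / 2 ^ n :=
          div_le_div_of_nonneg_right h6 (by positivity)
      _ ≤ (s₁ / ω + 1) * r / 2 ^ m := by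
          apply div_le_div_of_nonneg_left h7 (by positivity)
          exact pow_le_pow_right₀ (by norm_num) hmn
  · have hc := GG_cont (Φ := Φ) hΦ.dif.continuousOn
    have : ContinuousOn (fun u : ℝ => ((u / d ^ n, t) : ℝ × ℝ)) (Icc (d ^ n * s') (d ^ n * s)) := by
      fun_prop
    refine hc.comp this ?_
    intro u hu
    have : 0 < d ^ n * s' := by positivity
    have hu0 : 0 < u := lt_of_lt_of_le this hu.1
    show 0 < u / d ^ n
    positivity
  · intro u hu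
    have hpos : 0 < d ^ n * s' := by positivity
    have hu0 : 0 < u := lt_of_lt_of_le hpos hu.1
    have h8 := GG_iter hb.deg hΦ n (u / d ^ n) (by positivity) t
    rw [← hdef] at h8
    have e3 : d ^ n * (u / d ^ n) = u := by field_simp
    rw [e3] at h8
    obtain ⟨x, hx, hx2⟩ := hJ u hu0 (hu.2.trans hn1) (d ^ n * t)
    refine ⟨x, hx, ?_⟩
    rw [h8]
    exact hx2
  · intro u hu v hv huv
    have hpos : 0 < d ^ n * s' := by positivity
    have hu0 : 0 < u := lt_of_lt_of_le hpos hu.1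
    have hv0 : 0 < v := lt_of_lt_of_le hpos hv.1
    have h8 := GG_iter hb.deg hΦ n (u / d ^ n) (by positivity) t
    have h9 := GG_iter hb.deg hΦ n (v / d ^ n) (by positivity) t
    rw [← hdef] at h8 h9
    have e3 : d ^ n * (u / d ^ n) = u := by field_simp
    have e4 : d ^ n * (v / d ^ n) = v := by field_simp
    rw [e3] at h8
    rw [e4] at h9
    rw [h8, h9]
    exact hU u ⟨hlow.trans hu.1, hu.2.trans hn1⟩ v ⟨hlow.trans hv.1, hv.2.trans hn1⟩ _ huv

theorem steps {d C₀ s₁ : ℝ} (hd : 2 ≤ d) (hC₀ : 0 ≤ C₀) {H : ℝ → ℂ}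
    (hstep : ∀ (m : ℕ) (s s' : ℝ), 0 < s → s ≤ s₁ / d ^ m → s / d ≤ s' → s' ≤ s →
      dist (H s') (H s) ≤ C₀ / 2 ^ m) (k : ℕ) :
    ∀ (m : ℕ) (s s' : ℝ), 0 < s' → s' ≤ s → s ≤ s₁ / d ^ m → s / d ^ k ≤ s' →
      dist (H s') (H s) ≤ 2 * C₀ / 2 ^ m := by
  have hd0 : 0 < d := by linarith
  induction k with
  | zero =>
    intro m s s' hs' h1 _ h3
    rw [pow_zero, div_one] at h3
    have : s = s' := le_antisymm h3 h1
    rw [this, dist_self]
    positivity
  | succ k ih =>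
    intro m s s' hs' h1 h2 h3
    have hs : 0 < s := lt_of_lt_of_le hs' h1
    have hC : C₀ / 2 ^ m ≤ 2 * C₀ / 2 ^ m := by
      apply div_le_div_of_nonneg_right _ (by positivity)
      linarith
    by_cases hc : s / d ≤ s'
    · exact (hstep m s s' hs h2 hc h1).trans hC
    · push Not at hc
      have h5 := hstep m s (s / d) hs h2 le_rfl (by
        rw [div_le_iff₀ hd0]; nlinarith)
      have h6 := ih (m + 1) (s / d) s' hs' hc.le (by
        rw [pow_succ, ← div_div]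
        exact div_le_div_of_nonneg_right h2 hd0.le) (by
        rw [div_div, ← pow_succ']
        exact h3)
      calc dist (H s') (H s) ≤ dist (H s') (H (s / d)) + dist (H (s / d)) (H s) :=
            dist_triangle _ _ _
        _ ≤ 2 * C₀ / 2 ^ (m + 1) + C₀ / 2 ^ m := add_le_add h6 h5
        _ = 2 * C₀ / 2 ^ m := by rw [pow_succ]; field_simp; ring

theorem exists_modulus {Φ : ℂ → ℂ} (hc : ContinuousOn Φ {w | 1 < ‖w‖}) {r a b : ℝ} (hr : 0 < r)
    (ha : 0 < a) :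
    ∃ ω : ℝ, 0 < ω ∧ ∀ s ∈ Icc a b, ∀ s' ∈ Icc a b, ∀ t : ℝ, |s - s'| ≤ ω →
      dist (GG Φ s t) (GG Φ s' t) < r / 2 := by
  have hK : IsCompact (Icc a b ×ˢ Icc (0 : ℝ) 1) := isCompact_Icc.prod isCompact_Icc
  have hcont : ContinuousOn (fun p : ℝ × ℝ => GG Φ p.1 p.2) (Icc a b ×ˢ Icc (0 : ℝ) 1) :=
    (GG_cont hc).mono fun p hp => lt_of_lt_of_le ha hp.1.1
  have hu := hK.uniformContinuousOn_of_continuous hcont
  rw [Metric.uniformContinuousOn_iff] at hu
  obtain ⟨δ, hδ, hδ2⟩ := hu (r / 2) (by positivity)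
  refine ⟨δ / 2, by positivity, ?_⟩
  intro s hs s' hs' t hst
  have h1 := hδ2 (s, Int.fract t) ⟨hs, Int.fract_nonneg t, (Int.fract_lt_one t).le⟩
    (s', Int.fract t) ⟨hs', Int.fract_nonneg t, (Int.fract_lt_one t).le⟩ (by
      rw [Prod.dist_eq, dist_self, Real.dist_eq]
      simp only [max_lt_iff]
      exact ⟨by linarith, hδ⟩)
  simpa only [GG, rp_fract] using h1

/-- points outside the filled Julia set close to a point of it come from the boundary -/
theorem near {f : Polynomial ℂ} {Φ : ℂ → ℂ} (hb : Bas f) (hΦ : Bott f Φ) {x : ℂ}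
    (hx : x ∈ JJ f) {ε δ : ℝ} (hε : 0 < ε) (hδ : 1 < δ) :
    ∃ w : ℂ, 1 < ‖w‖ ∧ ‖w‖ < δ ∧ dist (Φ w) x < ε := by
  obtain ⟨c, hc, hct⟩ := hΦ.inf
  -- `Φ` is large at infinity
  obtain ⟨R, hR⟩ : ∃ R : ℝ, ∀ w : ℂ, R < ‖w‖ → ‖x‖ + 1 < ‖Φ w‖ := by
    have hc2 : 0 < ‖c‖ / 2 := by
      have := norm_pos_iff.mpr hc
      positivity
    have h1 : ∀ᶠ w in Bornology.cobounded ℂ, ‖c‖ / 2 < ‖Φ w / w‖ :=
      (hct.norm).eventually (lt_mem_nhds (by linarith))
    have h2 : ∀ᶠ w in Bornology.cobounded ℂ, (‖x‖ + 1) / (‖c‖ / 2) < ‖w‖ :=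
      (tendsto_norm_cobounded_atTop (E := ℂ)).eventually (eventually_gt_atTop _)
    have h3 : ∀ᶠ w in Bornology.cobounded ℂ, ‖x‖ + 1 < ‖Φ w‖ := by
      filter_upwards [h1, h2] with w hw1 hw2
      rw [norm_div] at hw1
      have hw0 : 0 < ‖w‖ := by
        have : 0 ≤ (‖x‖ + 1) / (‖c‖ / 2) := by positivity
        linarith
      rw [lt_div_iff₀ hw0] at hw1
      rw [div_lt_iff₀ hc2] at hw2
      linarith [mul_comm ‖w‖ (‖c‖ / 2)]
    rw [← comap_norm_atTop, eventually_comap] at h3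
    obtain ⟨R, hR⟩ := eventually_atTop.mp h3
    exact ⟨R, fun w hw => hR ‖w‖ hw.le w rfl⟩
  have hA : IsCompact {w : ℂ | δ ≤ ‖w‖ ∧ ‖w‖ ≤ R} := by
    have : {w : ℂ | δ ≤ ‖w‖ ∧ ‖w‖ ≤ R} = closedBall 0 R ∩ {w | δ ≤ ‖w‖} := by
      ext w
      simp only [mem_ofPred_eq, mem_inter_iff, mem_closedBall, dist_zero_right]
      exact and_comm
    rw [this]
    exact (isCompact_closedBall _ _).inter_right (isClosed_le continuous_const continuous_norm)
  have hsub : {w : ℂ | δ ≤ ‖w‖ ∧ ‖w‖ ≤ R} ⊆ {w | 1 < ‖w‖} := fun w hw => lt_of_lt_of_le hδ hw.1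
  have hAi : IsCompact (Φ '' {w : ℂ | δ ≤ ‖w‖ ∧ ‖w‖ ≤ R}) :=
    hA.image_of_continuousOn (hΦ.dif.continuousOn.mono hsub)
  have hxn : x ∈ (Φ '' {w : ℂ | δ ≤ ‖w‖ ∧ ‖w‖ ≤ R})ᶜ := by
    rintro ⟨w, hw, hwx⟩
    have h1 : Φ w ∈ (KK f)ᶜ := by
      rw [← hΦ.img]
      exact mem_image_of_mem _ (hsub hw)
    exact h1 (hwx ▸ hb.jsub hx)
  obtain ⟨ε', hε', hball⟩ := Metric.isOpen_iff.mp hAi.isClosed.isOpen_compl x hxn
  have hxc : x ∈ closure (KK f)ᶜ := by
    have : x ∈ frontier (KK f) := hx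
    rw [frontier_eq_closure_inter_closure] at this
    exact this.2
  obtain ⟨y, hy, hyx⟩ := Metric.mem_closure_iff.mp hxc (min (min ε ε') 1) (by positivity)
  rw [← hΦ.img] at hy
  obtain ⟨w, hw, rfl⟩ := hy
  have hd1 : dist (Φ w) x < ε := by
    rw [dist_comm]; exact lt_of_lt_of_le hyx ((min_le_left _ _).trans (min_le_left _ _))
  have hd2 : dist (Φ w) x < ε' := by
    rw [dist_comm]; exact lt_of_lt_of_le hyx ((min_le_left _ _).trans (min_le_right _ _))
  have hd3 : dist (Φ w) x < 1 := by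
    rw [dist_comm]; exact lt_of_lt_of_le hyx (min_le_right _ _)
  refine ⟨w, hw, ?_, hd1⟩
  by_contra hcon
  push Not at hcon
  by_cases hwR : ‖w‖ ≤ R
  · exact hball hd2 (mem_image_of_mem _ ⟨hcon, hwR⟩)
  · push Not at hwR
    have h4 := hR w hwR
    have h5 : ‖Φ w‖ ≤ ‖x‖ + dist (Φ w) x := by
      rw [dist_eq_norm]
      have := norm_add_le x (Φ w - x)
      rwa [add_sub_cancel] at this
    linarith

/-- the Caratheodory loop -/
theorem cara (h : S_shr) : S_cara := by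
  intro f r Φ hb hE hΦ
  have hd : (2 : ℝ) ≤ f.natDegree := by exact_mod_cast hb.deg
  have hd0 : (0 : ℝ) < f.natDegree := by linarith
  have hr := hE.1
  obtain ⟨δ, hδ, hδ2⟩ := hΦ.bdry (r / 2) (by positivity)
  have hlog : 0 < Real.log δ := Real.log_pos hδ
  obtain ⟨s₁, hs₁, hs₁δ⟩ : ∃ s₁ : ℝ, 0 < s₁ ∧ s₁ < Real.log δ :=
    ⟨Real.log δ / 2, by positivity, by linarith⟩
  have hJ : ∀ s : ℝ, 0 < s → s ≤ s₁ → ∀ t, ∃ x ∈ JJ f, dist (GG Φ s t) x < r / 2 := by
    intro s hs hs2 t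
    apply hδ2 _ (norm_rp_gt hs t)
    rw [norm_rp]
    exact (Real.lt_log_iff_exp_lt (by linarith)).mp (by linarith)
  obtain ⟨ω, hω, hU⟩ := exists_modulus hΦ.dif.continuousOn (b := s₁) hr
    (show 0 < s₁ / (f.natDegree : ℝ) ^ 2 by positivity)
  obtain ⟨C₀, hC₀def⟩ : ∃ C₀ : ℝ, C₀ = (s₁ / ω + 1) * r := ⟨_, rfl⟩
  have hC₀ : 0 < C₀ := by rw [hC₀def]; positivity
  have est : ∀ (m : ℕ) (s s' t : ℝ), 0 < s' → s' ≤ s → s ≤ s₁ / (f.natDegree : ℝ) ^ m →
      dist (GG Φ s' t) (GG Φ s t) ≤ 2 * C₀ / 2 ^ m := by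
    intro m s s' t h1 h2 h3
    obtain ⟨k, hk⟩ := pow_unbounded_of_one_lt (s / s') (show (1 : ℝ) < f.natDegree by linarith)
    refine steps hd hC₀.le (H := fun u => GG Φ u t) ?_ k m s s' h1 h2 h3 ?_
    · intro m s s' hs hsm h4 h5
      have := step h hb hE hΦ hs₁ hω hJ hU m s s' t hs hsm h4 h5
      rw [← hC₀def] at this
      exact this
    · rw [div_le_iff₀ (by positivity)]
      rw [div_lt_iff₀ h1] at hk
      linarith
  have small : ∀ ε : ℝ, 0 < ε → ∃ m : ℕ, 2 * C₀ / 2 ^ m < ε := by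
    intro ε hε
    obtain ⟨m, hm⟩ := pow_unbounded_of_one_lt (2 * C₀ / ε) (show (1 : ℝ) < 2 by norm_num)
    refine ⟨m, ?_⟩
    rw [div_lt_iff₀ (by positivity)]
    rw [div_lt_iff₀ hε] at hm
    linarith [mul_comm ε ((2 : ℝ) ^ m)]
  have hpos : ∀ m : ℕ, 0 < s₁ / (f.natDegree : ℝ) ^ m := fun m => by positivity
  have hmono : ∀ m k : ℕ, m ≤ k → s₁ / (f.natDegree : ℝ) ^ k ≤ s₁ / (f.natDegree : ℝ) ^ m := by
    intro m k hmk
    apply div_le_div_of_nonneg_left hs₁.le (by positivity)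
    exact pow_le_pow_right₀ (by linarith) hmk
  have hconv : ∀ t : ℝ, ∃ l : ℂ,
      Tendsto (fun m : ℕ => GG Φ (s₁ / (f.natDegree : ℝ) ^ m) t) atTop (𝓝 l) := by
    intro t
    apply cauchySeq_tendsto_of_complete
    rw [Metric.cauchySeq_iff']
    intro ε hε
    obtain ⟨N, hN⟩ := small ε hε
    exact ⟨N, fun n hn => lt_of_le_of_lt (est N _ _ t (hpos n) (hmono N n hn) le_rfl) hN⟩
  choose φ hφ using hconv
  have hzero : Tendsto (fun k : ℕ => s₁ / (f.natDegree : ℝ) ^ k) atTop (𝓝 0) :=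
    tendsto_const_nhds.div_atTop (tendsto_pow_atTop_atTop_of_one_lt (by linarith))
  have hlim : ∀ (m : ℕ) (s t : ℝ), 0 < s → s ≤ s₁ / (f.natDegree : ℝ) ^ m →
      dist (GG Φ s t) (φ t) ≤ 2 * C₀ / 2 ^ m := by
    intro m s t hs hsm
    refine le_of_tendsto (tendsto_const_nhds.dist (hφ t)) ?_
    filter_upwards [hzero.eventually (ge_mem_nhds hs)] with k hk
    rw [dist_comm]
    exact est m s _ t (hpos k) hk hsm
  have hlim2 : ∀ ε : ℝ, 0 < ε → ∃ s₀ : ℝ, 0 < s₀ ∧ ∀ s : ℝ, 0 < s → s < s₀ → ∀ t : ℝ,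
      dist (Φ (rp s t)) (φ t) < ε := by
    intro ε hε
    obtain ⟨m, hm⟩ := small ε hε
    exact ⟨_, hpos m, fun s hs hsm t => lt_of_le_of_lt (hlim m s t hs hsm.le) hm⟩
  have hper : ∀ t, φ (t + 1) = φ t := by
    intro t
    refine tendsto_nhds_unique (hφ (t + 1)) ?_
    refine (hφ t).congr fun m => ?_
    simp only [GG, rp_add_one]
  have hcont : Continuous φ := by
    have hu : TendstoUniformly (fun (m : ℕ) t => GG Φ (s₁ / (f.natDegree : ℝ) ^ m) t) φ atTop := by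
      rw [Metric.tendstoUniformly_iff]
      intro ε hε
      obtain ⟨N, hN⟩ := small ε hε
      filter_upwards [eventually_ge_atTop N] with n hn t
      rw [dist_comm]
      exact lt_of_le_of_lt (hlim N _ t (hpos n) (hmono N n hn)) hN
    refine hu.continuous (Eventually.frequently (Eventually.of_forall fun m => ?_))
    have : Continuous fun t : ℝ => ((s₁ / (f.natDegree : ℝ) ^ m, t) : ℝ × ℝ) := by fun_prop
    exact (GG_cont hΦ.dif.continuousOn).comp_continuous this fun _ => hpos m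
  refine ⟨φ, hcont, hper, ?_, ?_, hlim2⟩
  · intro t
    have h1 : Tendsto (fun m : ℕ => f.eval (GG Φ (s₁ / (f.natDegree : ℝ) ^ (m + 1)) t)) atTop
        (𝓝 (f.eval (φ t))) :=
      (f.continuous.tendsto _).comp ((tendsto_add_atTop_iff_nat 1).mpr (hφ t))
    refine tendsto_nhds_unique h1 ?_
    refine (hφ (f.natDegree * t)).congr fun m => ?_
    rw [GG_conj hΦ (hpos (m + 1))]
    congr 1
    rw [pow_succ]
    field_simp
  · apply Subset.antisymm
    · rintro _ ⟨t, rfl⟩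
      rw [← hb.jcpt.isClosed.closure_eq, Metric.mem_closure_iff]
      intro ε hε
      obtain ⟨s₀, hs₀, h2⟩ := hlim2 (ε / 2) (by positivity)
      obtain ⟨η, hη, h3⟩ := hΦ.bdry (ε / 2) (by positivity)
      have hlη : 0 < Real.log η := Real.log_pos hη
      obtain ⟨s, hs, hs2, hs3⟩ : ∃ s : ℝ, 0 < s ∧ s < s₀ ∧ s < Real.log η :=
        ⟨min s₀ (Real.log η) / 2, by positivity,
          lt_of_lt_of_le (half_lt_self (by positivity)) (min_le_left _ _),
          lt_of_lt_of_le (half_lt_self (by positivity)) (min_le_right _ _)⟩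
      obtain ⟨x, hx, hxd⟩ := h3 (rp s t) (norm_rp_gt hs t) (by
        rw [norm_rp]
        exact (Real.lt_log_iff_exp_lt (by linarith)).mp hs3)
      refine ⟨x, hx, ?_⟩
      have h4 := h2 s hs hs2 t
      calc dist (φ t) x ≤ dist (φ t) (Φ (rp s t)) + dist (Φ (rp s t)) x := dist_triangle _ _ _
        _ < ε / 2 + ε / 2 := by
            rw [dist_comm (φ t)]
            exact add_lt_add h4 hxd
        _ = ε := by ring
    · intro x hx
      have hper' : Function.Periodic φ 1 := hper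
      have hrange : range φ = φ '' Icc 0 1 := by
        have := hper'.image_Icc one_pos 0
        rw [zero_add] at this
        exact this.symm
      have hcl : IsClosed (range φ) := by
        rw [hrange]
        exact (isCompact_Icc.image hcont).isClosed
      rw [← hcl.closure_eq, Metric.mem_closure_iff]
      intro ε hε
      obtain ⟨s₀, hs₀, h2⟩ := hlim2 (ε / 2) (by positivity)
      obtain ⟨w, hw1, hw2, hw3⟩ := near hb hΦ hx (show 0 < ε / 2 by positivity)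
        (show 1 < Real.exp s₀ from Real.one_lt_exp_iff.mpr hs₀)
      obtain ⟨s, t, hs, hsl, hst⟩ := exists_rp w hw1
      refine ⟨φ t, mem_range_self t, ?_⟩
      have hss : s < s₀ := by
        rw [hsl]
        exact (Real.log_lt_iff_lt_exp (by linarith)).mpr hw2
      have h4 := h2 s hs hss t
      rw [hst] at h4
      calc dist x (φ t) ≤ dist x (Φ w) + dist (Φ w) (φ t) := dist_triangle _ _ _
        _ < ε / 2 + ε / 2 := by
            rw [dist_comm x]
            exact add_lt_add hw3 h4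
        _ = ε := by ring

end Pool.Agent.W653.JQ
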